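import Pool.Agent.helper64.PB.SpecL

/-!
# Project pb (MP_069684_lc), row PNP (helper90): P/Poly is contained in NP/Poly
-/

set_option autoImplicit false

namespace Pool.Agent.PB

/-- **PNP**. -/
theorem PNP (hRST : RST_stmt) (hSUB : SUB_stmt) : PNP_stmt := by
  have _ := hRST
  rintro A ⟨c, hc⟩
  refine ⟨c, fun n => ⟨0, Nat.zero_le _, fun z => A n (fun i => z (Fin.castAdd 0 i)), ?_, ?_⟩⟩
  · obtain ⟨l', h1, h2, h3⟩ := hSUB std n (n + 0) (A n) (n ^ c + c) []
      (fun i => fun z => z (Fin.castAdd 0 i)) (hc n) Prog.nil (fun i => Or.inr ⟨_, rfl⟩)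
    rw [List.append_nil] at h1 h3
    exact ⟨l', h1, h2, h3⟩
  · intro x
    have h0 : ∀ y : Fin 0 → Bool, (fun i => Fin.append x y (Fin.castAdd 0 i)) = x := by
      intro y
      funext i
      exact Fin.append_left x y i
    constructor
    · intro h
      refine ⟨fun i => i.elim0, ?_⟩
      change A n (fun i => Fin.append x _ (Fin.castAdd 0 i)) = true
      rw [h0]
      exact h
    · rintro ⟨y, hy⟩
      change A n (fun i => Fin.append x y (Fin.castAdd 0 i)) = true at hy
      rw [h0] at hy
      exact hy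

end Pool.Agent.PB
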