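import Pool.Agent.helper64.PB.SpecB

/-!
# Project pb (MP_069684_lc), row TKI (helper90): threshold functions from the intersection property
-/

set_option autoImplicit false

namespace Pool.Agent.PB

/-- A gate is computed by one gate. -/
theorem TKI_gate (G : Set Gate) (g : Gate) (hg : g ∈ G) : InCl G g.2 := by
  refine ⟨1, [g.2], ?_, by simp, Or.inl (by simp)⟩
  exact Prog.step [] g (fun i => fun x => x i) Prog.nil hg (fun i => Or.inr ⟨i, rfl⟩)

/-- The conjunction of the variables in a set. -/
def TKI_cj {m : ℕ} (T : Finset (Fin m)) : BF m := fun y => decide (∀ j ∈ T, y j = true)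

theorem TKI_cj_mem (hCLP : CLP_stmt) (G : Set Gate) (hA : InCl G fAnd) {m : ℕ} (T : Finset (Fin m))
    (hT : T.Nonempty) : InCl G (TKI_cj T) := by
  classical
  induction T using Finset.induction_on with
  | empty => exact absurd hT (by simp)
  | insert a s ha ih =>
    have h1 : InCl G (fun y : Fin m → Bool => y a) := hCLP.1 G m a
    by_cases hs : s.Nonempty
    · have h2 := ih hs
      have h3 := hCLP.2 G 2 m fAnd ![fun y => y a, TKI_cj s] hA (by
        intro i
        fin_cases i
        · exact h1
        · exact h2)
      have h4 : TKI_cj (insert a s) = fun x => fAnd fun i => (![fun y => y a, TKI_cj s] : Fin 2 → BF m) i x := by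
        funext y
        rw [Bool.eq_iff_iff]
        simp [TKI_cj, fAnd]
      rw [h4]
      exact h3
    · rw [Finset.not_nonempty_iff_eq_empty] at hs
      have h4 : TKI_cj (insert a s) = fun y : Fin m → Bool => y a := by
        funext y
        rw [Bool.eq_iff_iff]
        simp [TKI_cj, hs]
      rw [h4]
      exact h1

/-- The point with one zero. -/
def TKI_p {m : ℕ} (j : Fin m) : Fin m → Bool := fun i => decide (i ≠ j)

theorem TKI_fT_true {k : ℕ} {x : Fin (k + 1) → Bool} (h : fT k x = true) :
    x = (fun _ => true) ∨ ∃ j, x = TKI_p j := by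
  by_cases h1 : ∃ j, x j = false
  · obtain ⟨j, hj⟩ := h1
    right
    refine ⟨j, ?_⟩
    funext i
    unfold TKI_p
    by_cases hij : i = j
    · simp [hij, hj]
    · have h2 : ∀ i j : Fin (k + 1), i ≠ j → x i = true ∨ x j = true := by
        simpa [fT] using h
      rcases h2 i j hij with h3 | h3
      · simp [hij, h3]
      · rw [hj] at h3; exact absurd h3 (by simp)
  · left
    funext i
    by_contra h2
    exact h1 ⟨i, by simpa using h2⟩

/-- **TKI**. -/
theorem TKI (hCLP : CLP_stmt) (hPRP : PRP_stmt) : TKI_stmt := by
  classical
  intro G k hk hI hnI hA hM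
  obtain ⟨⟨r, f⟩, hfG, hf⟩ := hnI
  unfold Inter at hf
  push Not at hf
  obtain ⟨a, ha, hz⟩ := hf
  change ∀ j, f (a j) = true at ha
  change ∀ i : Fin r, ∃ j, a j i ≠ true at hz
  -- the function g
  set φ : Fin r → BF (k + 1) := fun i => TKI_cj (Finset.univ.filter fun j => a j i = false) with hφ
  set g : BF (k + 1) := fun y => f fun i => φ i y with hg
  have hgG : InCl G g := by
    refine hCLP.2 G r (k + 1) f φ (TKI_gate G ⟨r, f⟩ hfG) ?_
    intro i
    refine TKI_cj_mem hCLP G hA _ ?_
    obtain ⟨j, hj⟩ := hz i
    exact ⟨j, by simpa using hj⟩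
  have hgp : ∀ j, g (TKI_p j) = true := by
    intro j
    have h1 : (fun i => φ i (TKI_p j)) = a j := by
      funext i
      rw [Bool.eq_iff_iff]
      simp only [hφ, TKI_cj, TKI_p, decide_eq_true_eq, Finset.mem_filter, Finset.mem_univ, true_and]
      constructor
      · intro h
        by_contra h2
        exact h j (by simpa using h2) rfl
      · intro h m hm hmj
        rw [hmj, h] at hm
        exact absurd hm (by simp)
    change f (fun i => φ i (TKI_p j)) = true
    rw [h1]
    exact ha j
  have hInt : Inter k g := (hPRP G (k + 1) g hgG).2.2.2.2.2.1 k hI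
  have hg0 : ∀ y : Fin (k + 1) → Bool, ∀ i j, i ≠ j → y i = false → y j = false → g y = false := by
    intro y i j hij hi hj
    by_contra hgy
    have hgy' : g y = true := by simpa using hgy
    obtain ⟨c, hc⟩ := hInt (fun t => if i.succAbove t = j then y else TKI_p (i.succAbove t)) (by
      intro t
      split_ifs with h
      · exact hgy'
      · exact hgp _)
    obtain ⟨tj, htj⟩ := Fin.exists_succAbove_eq (Ne.symm hij)
    have hcj := hc tj
    rw [if_pos htj] at hcj
    by_cases hci : c = i
    · rw [hci, hi] at hcj; exact absurd hcj (by simp)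
    · obtain ⟨tc, htc⟩ := Fin.exists_succAbove_eq hci
      have hcc := hc tc
      rw [htc] at hcc
      by_cases hcj' : c = j
      · rw [hcj', hj] at hcj; exact absurd hcj (by simp)
      · rw [if_neg hcj'] at hcc
        simp [TKI_p] at hcc
  have hfT : ∀ h : BF (k + 1), h (fun _ => true) = true → (∀ j, h (TKI_p j) = true) →
      (∀ y : Fin (k + 1) → Bool, ∀ i j, i ≠ j → y i = false → y j = false → h y = false) → h = fT k := by
    intro h h1 h2 h3
    funext x
    by_cases hx : fT k x = true
    · rw [hx]
      rcases TKI_fT_true hx with rfl | ⟨j, rfl⟩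
      · exact h1
      · exact h2 j
    · have hx' : ¬ ∀ i j : Fin (k + 1), i ≠ j → x i = true ∨ x j = true := by simpa [fT] using hx
      push Not at hx'
      obtain ⟨i, j, hij, hi, hj⟩ := hx'
      rw [h3 x i j hij (by simpa using hi) (by simpa using hj)]
      symm
      simpa using hx
  by_cases h1 : g (fun _ => true) = true
  · rw [← hfT g h1 hgp hg0]
    exact hgG
  · have h1' : g (fun _ => true) = false := by simpa using h1
    have h0 : g (fun _ => false) = false := by
      refine hg0 _ 0 (Fin.last k) ?_ rfl rfl
      intro h
      have := congrArg Fin.val h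
      simp at this
      omega
    -- the constant zero
    have hz0 : InCl G (fC false (k + 1)) := by
      have h2 := hCLP.2 G (k + 1) (k + 1) g (fun _ => fun y => y 0) hgG (fun _ => hCLP.1 G (k + 1) 0)
      have h3 : fC false (k + 1) = fun x => g fun _ => x 0 := by
        funext x
        by_cases hx : x 0 = true
        · rw [hx, h1']; rfl
        · have hx' : x 0 = false := by simpa using hx
          rw [hx', h0]; rfl
      rw [h3]
      exact h2
    have hall : InCl G (TKI_cj (Finset.univ : Finset (Fin (k + 1)))) := TKI_cj_mem hCLP G hA _ ⟨0, by simp⟩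
    set w : BF (k + 1) := fun y => y (Fin.last k) && !(TKI_cj (Finset.univ : Finset (Fin (k + 1))) y) with hw
    have hwG : InCl G w := by
      have h2 := hCLP.2 G 3 (k + 1) fM ![fun y => y (Fin.last k), fC false (k + 1),
        TKI_cj (Finset.univ : Finset (Fin (k + 1)))] hM (by
          intro i
          fin_cases i
          · exact hCLP.1 G (k + 1) (Fin.last k)
          · exact hz0
          · exact hall)
      have h3 : w = fun x => fM fun i => (![fun y => y (Fin.last k), fC false (k + 1),
          TKI_cj (Finset.univ : Finset (Fin (k + 1)))] : Fin 3 → BF (k + 1)) i x := by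
        funext x
        simp [fM, hw, fC]
      rw [h3]
      exact h2
    set ψ : Fin (k + 1) → BF (k + 1) := fun i => if i = Fin.last k then w else fun y => y i with hψ
    have hfin : InCl G (fun x => g fun i => ψ i x) := by
      refine hCLP.2 G (k + 1) (k + 1) g ψ hgG ?_
      intro i
      simp only [hψ]
      split_ifs with h
      · exact hwG
      · exact hCLP.1 G (k + 1) i
    have hcl : ∀ y : Fin (k + 1) → Bool, (∃ j, y j = false) → (fun i => ψ i y) = y := by
      intro y hy
      obtain ⟨j, hj⟩ := hy
      have hc : TKI_cj (Finset.univ : Finset (Fin (k + 1))) y = false := by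
        simp only [TKI_cj, decide_eq_false_iff_not]
        intro h
        have := h j (Finset.mem_univ _)
        rw [hj] at this
        exact absurd this (by simp)
      funext i
      simp only [hψ]
      split_ifs with h
      · simp [hw, hc, h]
      · rfl
    have hfin2 : (fun x => g fun i => ψ i x) = fT k := by
      refine hfT _ ?_ ?_ ?_
      · have h2 : (fun i => ψ i (fun _ => true)) = TKI_p (Fin.last k) := by
          funext i
          simp only [hψ, TKI_p]
          split_ifs with h
          · simp [hw, h, TKI_cj]
          · simp [h]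
        change g (fun i => ψ i (fun _ => true)) = true
        rw [h2]
        exact hgp _
      · intro j
        change g (fun i => ψ i (TKI_p j)) = true
        rw [hcl (TKI_p j) ⟨j, by simp [TKI_p]⟩]
        exact hgp j
      · intro y i j hij hi hj
        change g (fun i => ψ i y) = false
        rw [hcl y ⟨i, hi⟩]
        exact hg0 y i j hij hi hj
    rw [← hfin2]
    exact hfin

end Pool.Agent.PB
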